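import Pool.Agent.H21.TN.ND.Flat
import Pool.Agent.H21.TN.OP.Defs
import Pool.Agent.H21.TN.YN.Defs

/-!
# Nef line bundles of numerical dimension two, and of numerical dimension at most `kappa + 1`

`Var` and `Flat` are the structures of `Pool/Agent/H21/TN/ND/{Var,Flat}`, `Fib` is the one of
`Pool/Agent/H21/TN/OP/Defs`, `Link` and `Pencils` those of `Pool/Agent/H21/TN/YN/Defs`, `BCl` and `Cur` those of
`Pool/Agent/H60/BC/DefsN`, `Sys` is the one of `Pool/Agent/H81/XN/Defs`.
-/

namespace Pool.Agent.H21.TN.OQ

open Pool.Agent.H21.TN.ND Pool.Agent.H54.XN Pool.Agent.H81.XN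

/-- a positive multiple of the line bundle has a nonzero section: the Iitaka dimension is not `-∞` -/
def Eff {r : ℕ} (X : Var r) (x : X.P) : Prop := ∃ k : ℕ, 0 < k ∧ X.h 0 (k • x) ≠ 0

/-- A projective manifold `Y = X` of dimension `n ≥ 2` with `K_Y ~ 0` and `H^1(Y, O_Y) = 0`. -/
structure Fac (r : ℕ) where
  X : Var r
  div : X.Divisors
  coh : X.Coh
  cur : X.Currents
  forms : ∀ L, X.Nef L → X.Forms cur L
  /-- the Iitaka fibrations -/
  fib : Pool.Agent.H21.TN.OP.Fib X

/-- b-divisors on the manifold `Y = G.X` of dimension `n = m + 4`; the class of the ample line bundle `A` is the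
class `H` of `G.X` and the class `A` of `B`, and `G.fib.top x i` is the degree `x^i . A^(n - i)`. -/
structure Bdiv {r : ℕ} (G : Fac r) (m : ℕ) where
  /-- the intersection number of `n` line bundles, and an ample line bundle -/
  Q : Multiset G.X.P → ℤ
  A : G.X.P
  /-- the classes of b-divisors on `Y` -/
  B : BCl r m
  link : Pool.Agent.H21.TN.YN.Link G.X B
  rl_A : G.X.rl A = B.A
  int : ∀ s : Multiset G.X.P, B.I (s.map fun x => B.pb (G.X.rl x)) = Q s
  num : ∀ x y, AA B (B.pb x) (B.pb y) = G.X.num.f x y
  top_three : ∀ x, G.fib.top x 3 = Q (x ::ₘ x ::ₘ x ::ₘ Multiset.replicate (m + 1) A)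
  /-- the closed positive currents in the class of a nef line bundle -/
  curB : ∀ x, G.X.Nef x → Cur B (G.X.rl x)
  /-- nef line bundles of numerical dimension two -/
  two : ∀ x (hx : G.X.Nef x), G.fib.top x 3 = 0 → ¬ G.X.One x →
    Sys (curB x hx) (fun p => G.X.chi (p • x)) (G.forms x hx).Has
  pencils : ∀ x, G.X.Nef x → Pool.Agent.H21.TN.YN.Pencils G.X B x

/-- A projective manifold `X` of any dimension with `K_X ~ 0` and `H^1(X, O_X) = 0`. By Beauville and
Bogomolov there is a finite étale Galois covering `X' → X` with group `G` and `X' = A × ∏ Y_i`, where `A` is an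
abelian variety and the `Y_i` are simply connected: K3 surfaces, strict Calabi-Yau manifolds and irreducible
hyperkähler manifolds. -/
structure Covered where
  /-- the Picard number of `X` -/
  r : ℕ
  /-- the manifold `X` -/
  X : Var r
  /-- the factors `Y_i` and their Picard numbers -/
  I : Type
  rk : I → ℕ
  fac : ∀ i, Fac (rk i)
  bdiv : ∀ i m, (fac i).X.n = m + 4 → Bdiv (fac i) m
  /-- the Picard group of `A`, and the semiample line bundles on `A` -/
  R : Type
  saA : R → Prop
  /-- the restrictions to the factors of the pull back to `X'` -/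
  res : ∀ i, X.P → (fac i).X.P
  resA : X.P → R
  nef_res : ∀ x i, X.Nef x → (fac i).X.Nef (res i x)
  /-- The pull back of `x` is the sum of its restrictions to the factors (`Y_i` is simply connected),
  and semiampleness descends along finite coverings (norm). -/
  descent : ∀ x, (∀ i, (fac i).X.Semiample (res i x)) → saA (resA x) → X.Semiample x
  /-- A multiple of the pull back of `x` is the exterior product of multiples of its restrictions to the
  factors, so it has a nonzero section; the norm is a nonzero section of a multiple of `x`. -/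
  norm : ∀ x, (∀ i, Eff (fac i).X (res i x)) → saA (resA x) → Eff X x
  G : Type
  [grpG : Group G]
  [finG : Fintype G]
  /-- If a multiple of the restriction of `M` to `B` is trivial, a multiple of `M` is the pull back of
  an ample line bundle on `A / B` (see `Flat`). -/
  flat : ∀ x, X.Nef x → ∃ F : Flat G, ∀ n : ℕ, 0 < n → n • F.p = 0 → saA (resA x)

attribute [instance] Covered.grpG Covered.finG

end Pool.Agent.H21.TN.OQ
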