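import Pool.Agent.H21.TN.OP.Main
import Pool.Agent.H21.TN.ND.Fact
import Pool.Agent.H21.TN.YN.Mfd
import Pool.Agent.H21.TN.OQ.Defs

/-!
# MP_5ee2d0_ag: nef line bundles of numerical dimension two, and of numerical dimension at most `kappa + 1`
-/

namespace Pool.Agent.H21.TN.OQ

open Pool.Agent.H21.TN.ND Pool.Agent.H54.XN Pool.Agent.H81.XN Pool.Agent.H21.TN.OP

/-- the manifold of `Pool/Agent/H21/YN/MfdDefs` -/
noncomputable def Bdiv.mfd {r : ℕ} {G : Fac r} {m : ℕ} (b : Bdiv G m) :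
    Pool.Agent.H21.TN.YN.Mfd r m where
  X := G.X
  div := G.div
  coh := G.coh
  cur := G.cur
  forms := G.forms
  Q := b.Q
  A := b.A
  B := b.B
  link := b.link
  rl_A := b.rl_A
  int := b.int
  num := b.num
  curB := b.curB
  two x hx h := b.two x hx (by rw [b.top_three, h, Int.cast_zero])
  pencils := b.pencils

/-- A nef line bundle of numerical dimension at most two on a manifold with `χ(O) ≠ 0`. -/
theorem Bdiv.eff {r : ℕ} {G : Fac r} {m : ℕ} (b : Bdiv G m) (hchi : G.X.chi 0 ≠ 0) (x : G.X.P)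
    (hx : G.X.Nef x) (h : G.fib.top x 3 = 0) : Eff G.X x := by
  refine b.mfd.effective hchi x hx ?_
  rw [b.top_three, Int.cast_eq_zero] at h
  exact h

/-- `h^0(k x) ≠ 0` implies `kappa(x) ≥ 0` -/
theorem Eff.kod {r : ℕ} {X : Var r} (D : X.Divisors) {x : X.P} (h : Eff X x) : Kod X x 0 := by
  obtain ⟨k, hk, h0⟩ := h
  refine ⟨k, hk, 1, one_pos, fun i _ => ?_⟩
  have h1 : X.h 0 (i • k • x) ≠ 0 := by
    rw [D.sect]
    obtain ⟨E, hE⟩ := (D.sect _).1 h0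
    exact ⟨i • E, by rw [Var.line_nsmul, hE]⟩
  rw [pow_zero, mul_one]
  exact_mod_cast Nat.one_le_iff_ne_zero.2 h1

namespace Covered

variable (D : Covered)

theorem eff_res (x : D.X.P) (hx : D.X.Nef x) (i : D.I)
    (h : Eff (D.fac i).X (D.res i x) ∨
      ((D.fac i).fib.top (D.res i x) 2 = 0 ∧ ∃ m : ℤ, (D.fac i).X.chi (m • D.res i x) ≠ 0) ∨
      (4 ≤ (D.fac i).X.n ∧ (D.fac i).fib.top (D.res i x) 3 = 0 ∧ (D.fac i).X.chi 0 ≠ 0)) :
    Eff (D.fac i).X (D.res i x) := by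
  rcases h with h | ⟨h2, h⟩ | ⟨h4, h3, h⟩
  · exact h
  · refine Var.nonvanishing (D.fac i).div (D.fac i).coh (D.fac i).cur _
      ((D.fac i).forms _ (D.nef_res x i hx)) (D.nef_res x i hx) ?_ h
    rw [(D.fac i).fib.top_two] at h2
    exact h2
  · exact (D.bdiv i ((D.fac i).X.n - 4) (by omega)).eff h _ (D.nef_res x i hx) h3

/-- **Theorem.** -/
theorem main (x : D.X.P) (hx : D.X.Nef x)
    (h : ∀ i, Eff (D.fac i).X (D.res i x) ∨
      ((D.fac i).fib.top (D.res i x) 2 = 0 ∧ ∃ m : ℤ, (D.fac i).X.chi (m • D.res i x) ≠ 0) ∨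
      (4 ≤ (D.fac i).X.n ∧ (D.fac i).fib.top (D.res i x) 3 = 0 ∧ (D.fac i).X.chi 0 ≠ 0)) :
    Eff D.X x ∧
      ((∀ i, (D.fac i).fib.top (D.res i x) 2 = 0 ∨
        ∃ k, Kod (D.fac i).X (D.res i x) k ∧ (D.fac i).fib.top (D.res i x) (k + 2) = 0) →
      D.X.Semiample x) := by
  have h0 := fun i => D.eff_res x hx i (h i)
  have hA : D.saA (D.resA x) := by
    obtain ⟨F, hF⟩ := D.flat x hx
    exact hF _ Fintype.card_pos F.torsion
  refine ⟨D.norm x h0 hA, fun h1 => D.descent x (fun i => ?_) hA⟩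
  rcases h1 i with h2 | ⟨k, hk, h2⟩
  · exact (D.fac i).fib.semiample _ (D.nef_res x i hx) 0 ((h0 i).kod (D.fac i).div) h2
  · exact (D.fac i).fib.semiample _ (D.nef_res x i hx) k hk h2

end Covered

end Pool.Agent.H21.TN.OQ
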